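import Pool.Agent.H183Z.Unpinned

set_option autoImplicit false

namespace Pool.Agent.Results.MP_93ccfe_al.NotPinned

open Pool.Agent.H183Z

/-- For every `N ≥ 3` there is a point `T` of the closure of Outer space of `F_N` which is not
pinned down by any finite subset of `F_N` (primitive or not). -/
theorem result (N : ℕ) (hN : 3 ≤ N) :
    ∃ (T : Type) (_ : MetricSpace T) (_ : MulAction (FreeGroup (Fin N)) T),
      InClosedCV N T ∧ ∀ S : Set (FreeGroup (Fin N)), S.Finite → ¬ PinsDown N S T :=
  unpinned N hN

end Pool.Agent.Results.MP_93ccfe_al.NotPinned
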